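import Mathlib
import Pool.Agent.J6H58.D3.Fin
import Pool.Agent.J6H58.D3.Pat

/-!
# Every admissible set of 2890 shifts contains an exact pattern of at least three primes

Every set `S` of at least 2890 integers which misses a residue class modulo every prime has a subset `P` with at
least three elements such that for every `R` the primes among the numbers `n + y`, `|y| ≤ R`, are exactly those with
`y ∈ P`, for arbitrarily large `x` and at least `x / (log x) ^ B` of the `n ≤ x` in a given residue class. In
particular `P` (moved so that its least element is `0`) is an admissible pattern of at least three elements which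
is realised by consecutive primes infinitely often.

This rests on a theorem on linear forms: three of any 2890 admissible linear forms are simultaneously prime (the
best number in the literature is 35410). The sieve weight is supported on tuples with many small coordinates, for
which the pair sums are evaluated beyond the level `1/2` (`Pool.Agent.Y826`); the main sums are evaluated by a
certificate which the kernel checks.
-/

set_option autoImplicit false

open Filter

namespace Pool.Agent.Results.MP_3ec731_nt.ExactPatternsWithThreePrimes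

/-- There is an absolute constant `B` such that the following holds for every set `S` of at least 2890 integers
which misses a residue class modulo every prime and every residue `r` modulo `q ≥ 1` such that all `r + s`,
`s ∈ S`, are prime to `q`.

(1) For all `R` and all large `x`, for at least `x / (log x) ^ B` of the integers `0 ≤ n ≤ x`, `n ≡ r (mod q)`, there
is a `P ⊆ S` with at least three elements such that for all `y` with `|y| ≤ R` or `y ∈ S` the number `n + y` is
prime if and only if `y ∈ P`.

(2) There is one `P ⊆ S` with at least three elements such that for all `R` and arbitrarily large `x`, at least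
`x / (log x) ^ B` of the integers `0 ≤ n ≤ x`, `n ≡ r (mod q)`, have the property: for all `y` with `|y| ≤ R` or
`y ∈ S` the number `n + y` is prime if and only if `y ∈ P`. -/
theorem result : ∃ B : ℕ, ∀ S : Finset ℤ, 2890 ≤ S.card →
    (∀ p : ℕ, p.Prime → ∃ r : ℤ, ∀ s ∈ S, ¬ (p : ℤ) ∣ r + s) → ∀ (q : ℕ) (r : ℤ), 0 < q →
    (∀ s ∈ S, IsCoprime (r + s) (q : ℤ)) →
    (∀ R : ℕ, ∀ᶠ x : ℝ in atTop, x / Real.log x ^ B ≤
      (Set.ncard {n : ℕ | (n : ℝ) ≤ x ∧ (n : ℤ) ≡ r [ZMOD q] ∧ ∃ P : Finset ℤ, P ⊆ S ∧ 3 ≤ P.card ∧
        ∀ y : ℤ, |y| ≤ R ∨ y ∈ S → ((∃ p : ℕ, p.Prime ∧ (p : ℤ) = n + y) ↔ y ∈ P)} : ℝ)) ∧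
    ∃ P : Finset ℤ, P ⊆ S ∧ 3 ≤ P.card ∧ ∀ R : ℕ, ∃ᶠ x : ℝ in atTop,
      x / Real.log x ^ B ≤ (Set.ncard {n : ℕ | (n : ℝ) ≤ x ∧ (n : ℤ) ≡ r [ZMOD q] ∧
        ∀ y : ℤ, |y| ≤ R ∨ y ∈ S → ((∃ p : ℕ, p.Prime ∧ (p : ℤ) = n + y) ↔ y ∈ P)} : ℝ) :=
  ⟨Pool.Agent.J6H58.D3.CC 2890 + 4, fun S hS hadm q r hq hr =>
    Pool.Agent.J6H58.D3.exact_shifts Pool.Agent.J6H58.D3.lh2890 S hS hadm q r hq hr⟩

end Pool.Agent.Results.MP_3ec731_nt.ExactPatternsWithThreePrimes
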