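import Mathlib
import Pool.Agent.J6H17.TA.Fam

/-!
# One infinite pattern of consecutive primes for infinitely many sets of integers

Let `A_0, A_1, A_2, …` be ARBITRARY infinite sets of integers (such that `r + a` is prime to `q` for their
elements `a`; for `q = 1` this is no condition). There is one set `S` of integers such that

* `S` is an exact pattern of primes: for every `R` there are infinitely many `n ≡ r` modulo `q` such that the
  primes within distance `R` of `n` are exactly the numbers `n + s`, `s ∈ S`, `|s| ≤ R`; so all finite blocks of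
  consecutive elements of `S` are realised as consecutive primes;
* `S` contains infinitely many elements of `A_k` for infinitely many `k`; and if no prime is an obstruction (for
  every prime `p` some residue class modulo `p` contains no element of any `A_k`) for a set of `k` of upper
  density at least `1 / 401`.

For one set this is the theorem on infinite exact patterns of the starting files. See
`Pool.Agent.Results.MP_6a20cc_nt.ManyFamilies` for the proof and for the case of general linear forms, which is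
used here for the forms `q x + (r + a)`.
-/

set_option autoImplicit false

namespace Pool.Agent.Results.MP_3ec731_nt.ManySetsOnePattern

/-- for every `R` there are infinitely many `n ≡ r` modulo `q` such that the primes `n + y` with `|y| ≤ R` are
exactly the numbers `n + y` with `y ∈ S`, `|y| ≤ R` -/
def ExactPattern (q : ℕ) (r : ℤ) (S : Set ℤ) : Prop :=
  ∀ R : ℕ, {n : ℕ | (n : ℤ) ≡ r [ZMOD q] ∧
    ∀ y : ℤ, |y| ≤ R → ((∃ p : ℕ, p.Prime ∧ (n : ℤ) + y = p) ↔ y ∈ S)}.Infinite

open Classical in
theorem result (q : ℕ) (hq : 1 ≤ q) (r : ℤ) (A : ℕ → Set ℤ) (hA : ∀ k, (A k).Infinite)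
    (hcop : ∀ k, ∀ a ∈ A k, IsCoprime (q : ℤ) (r + a)) :
    ∃ S : Set ℤ, S ⊆ (⋃ k, A k) ∧ ExactPattern q r S ∧ {k | (S ∩ A k).Infinite}.Infinite ∧
      ((∀ p : ℕ, p.Prime → ∃ c : ℤ, ∀ k, ∀ a ∈ A k, ¬ a ≡ c [ZMOD p]) →
        ∃ᶠ M in Filter.atTop,
          (1 / 401 : ℝ) * M ≤ ((Finset.range M).filter (fun k => (S ∩ A k).Infinite)).card) := by
  have hinj : Function.Injective fun a : ℤ => ((q : ℤ), r + a) := by
    intro a b h
    have := (Prod.ext_iff.1 h).2
    simp only at this
    omega
  obtain ⟨G, h1, h2, h3, h4⟩ := Pool.Agent.J6H17.TA.families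
    (fun k => (fun a : ℤ => ((q : ℤ), r + a)) '' A k) (fun k => (hA k).image hinj.injOn) (by
      rintro k _ ⟨a, ha, rfl⟩
      exact ⟨by simpa using hq, hcop k a ha⟩)
  have hprime : ∀ z : ℤ, (∃ p : ℕ, p.Prime ∧ z = p) ↔ Nat.Prime z.toNat := by
    intro z
    constructor
    · rintro ⟨p, hp, rfl⟩
      rw [Int.toNat_natCast]
      exact hp
    · intro h
      refine ⟨_, h, ?_⟩
      rw [Int.toNat_of_nonneg]
      by_contra hcon
      rw [Int.toNat_of_nonpos (by omega)] at h
      exact Nat.not_prime_zero h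
  have hGA : ∀ k, (G ∩ ((fun a : ℤ => ((q : ℤ), r + a)) '' A k)).Infinite →
      ({a : ℤ | ((q : ℤ), r + a) ∈ G} ∩ A k).Infinite := by
    intro k h hfin
    apply h
    refine (hfin.image (fun a : ℤ => ((q : ℤ), r + a))).subset ?_
    rintro _ ⟨h5, a, ha, rfl⟩
    exact ⟨a, ⟨h5, ha⟩, rfl⟩
  refine ⟨{a | ((q : ℤ), r + a) ∈ G}, ?_, ?_, ?_, ?_⟩
  · intro a ha
    obtain ⟨k, hk⟩ := Set.mem_iUnion.1 (h1 ha)
    obtain ⟨a', ha', he⟩ := hk
    rw [hinj he] at ha'
    exact Set.mem_iUnion.2 ⟨k, ha'⟩
  · intro R
    have h5 := h2 ((Finset.Icc (-(R : ℤ)) R).image (fun a : ℤ => ((q : ℤ), r + a))) (by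
      intro t ht
      obtain ⟨a, _, rfl⟩ := Finset.mem_image.1 ht
      simpa using hq)
    have h6 := h5.sdiff (Set.finite_lt_nat r.natAbs)
    refine (h6.image (f := fun x : ℕ => ((q : ℤ) * x + r).toNat) ?_).mono ?_
    · rintro x ⟨-, hx⟩ y ⟨-, hy⟩ he
      simp only [Set.mem_ofPred_eq, not_lt] at hx hy
      have hx' : (0 : ℤ) ≤ (q : ℤ) * x + r := by
        have : (x : ℤ) ≤ q * x := by
          have : (1 : ℤ) ≤ q := by exact_mod_cast hq
          nlinarith
        omega
      have hy' : (0 : ℤ) ≤ (q : ℤ) * y + r := by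
        have : (y : ℤ) ≤ q * y := by
          have : (1 : ℤ) ≤ q := by exact_mod_cast hq
          nlinarith
        omega
      simp only at he
      have h7 : (q : ℤ) * x + r = q * y + r := by
        rw [← Int.toNat_of_nonneg hx', ← Int.toNat_of_nonneg hy', he]
      have h8 : (q : ℤ) * x = q * y := by linarith
      have h9 : (q : ℤ) ≠ 0 := by
        have : (1 : ℤ) ≤ q := by exact_mod_cast hq
        omega
      exact_mod_cast mul_left_cancel₀ h9 h8
    · rintro _ ⟨x, ⟨hx1, hx2⟩, rfl⟩
      simp only [Set.mem_ofPred_eq, not_lt] at hx2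
      have hx' : (0 : ℤ) ≤ (q : ℤ) * x + r := by
        have : (x : ℤ) ≤ q * x := by
          have : (1 : ℤ) ≤ q := by exact_mod_cast hq
          nlinarith
        omega
      simp only [Set.mem_ofPred_eq]
      rw [Int.toNat_of_nonneg hx']
      refine ⟨?_, fun y hy => ?_⟩
      · rw [Int.modEq_iff_dvd]
        exact ⟨-x, by ring⟩
      · rw [hprime]
        have h7 := hx1 ((q : ℤ), r + y) (Finset.mem_image.2 ⟨y, Finset.mem_Icc.2 (abs_le.1 hy), rfl⟩)
        rw [← h7]
        simp only
        rw [add_assoc]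
  · refine (Nat.frequently_atTop_iff_infinite.1 h3).mono fun k hk => hGA k hk
  · intro hadm
    refine (h4 ?_).mono fun M hM => ?_
    · intro p hp
      obtain ⟨c, hc⟩ := hadm p hp
      by_cases hpq : (p : ℤ) ∣ q
      · refine ⟨0, ?_⟩
        rintro k _ ⟨a, ha, rfl⟩ h5
        simp only [mul_zero, zero_add] at h5
        have := (hcop k a ha).isUnit_of_dvd' hpq h5
        exact (Nat.prime_iff_prime_int.1 hp).not_isUnit this
      · have h6 : IsCoprime (q : ℤ) (p : ℤ) :=
          ((Nat.prime_iff_prime_int.1 hp).coprime_iff_not_dvd.2 hpq).symm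
        obtain ⟨u, v, huv⟩ := h6
        refine ⟨u * (-r - c), ?_⟩
        rintro k _ ⟨a, ha, rfl⟩ h5
        simp only at h5
        apply hc k a ha
        rw [Int.modEq_iff_dvd]
        have h7 : (q : ℤ) * (u * (-r - c)) + (r + a) = (a - c) - p * (v * (-r - c)) := by
          linear_combination (-r - c) * huv
        rw [h7] at h5
        have h8 : (p : ℤ) ∣ a - c := by
          have := dvd_add h5 (Dvd.intro (v * (-r - c)) rfl : (p : ℤ) ∣ p * (v * (-r - c)))
          rwa [sub_add_cancel] at this
        rw [← dvd_neg]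
        rwa [neg_sub]
    · have h5 : ((Finset.range M).filter (fun k =>
          (G ∩ ((fun a : ℤ => ((q : ℤ), r + a)) '' A k)).Infinite)).card ≤
          ((Finset.range M).filter (fun k => ({a : ℤ | ((q : ℤ), r + a) ∈ G} ∩ A k).Infinite)).card := by
        refine Finset.card_le_card fun k hk => ?_
        rw [Finset.mem_filter] at hk ⊢
        exact ⟨hk.1, hGA k hk.2⟩
      have h6 : (M : ℝ) ≤ 401 * ((Finset.range M).filter (fun k =>
          (G ∩ ((fun a : ℤ => ((q : ℤ), r + a)) '' A k)).Infinite)).card := by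
        exact_mod_cast hM
      have h7 : (((Finset.range M).filter (fun k =>
          (G ∩ ((fun a : ℤ => ((q : ℤ), r + a)) '' A k)).Infinite)).card : ℝ) ≤
          ((Finset.range M).filter (fun k => ({a : ℤ | ((q : ℤ), r + a) ∈ G} ∩ A k).Infinite)).card := by
        exact_mod_cast h5
      linarith

end Pool.Agent.Results.MP_3ec731_nt.ManySetsOnePattern
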