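import Pool.Agent.J6H10.PR.Gap
import Mathlib.Combinatorics.HalesJewett

/-!
# Consecutive prime gaps chosen freely from partition regular families

Let `𝓒_0, 𝓒_1, …` be any families of nonempty finite sets of positive integers which are invariant under
translations and partition regular: for every finite colouring of the positive integers some member of `𝓒_i` is
monochromatic. Examples are the homothetic copies `b + a E` of a given finite set `E` (van der Waerden), and, for given
polynomials `P_1, …, P_m` with integer coefficients and `P_j(0) = 0`, the sets `{b + P_1(a), …, b + P_m(a)}`, with `a`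
restricted to any set of finite sums (Bergelson-Leibman, Bergelson-Furstenberg-McCutcheon).

There are members `S_0 ∈ 𝓒_0, S_1 ∈ 𝓒_1, …` such that for ALL choices `x_i ∈ S_i` and all nonempty finite sets
`F_0 < F_1 < … < F_{k-1}` of indices the vector of the sums `x_{F_l} = ∑_{i ∈ F_l} x_i`, `l < k`, is the vector of
the gaps of `k + 1` consecutive primes, infinitely often, in a given residue class of the first prime; the block is
isolated by any given distance `R`.

The theorem is stated for families of finite subsets of an arbitrary commutative monoid `G` (for instance `ℕ^r`, or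
the free commutative monoid of infinite rank) and countably many homomorphisms `φ_j : G → ℕ` which are positive
outside `0`, moduli and residues at once. Here the members `S_i` cannot be prescribed: already for
one-element sets `S_i` the divisibility by the primes has to be respected.

Method: an infinite dimensional Ramsey theorem (`Pool.Agent.J6H10.PR.closed_sets`): if `q` is an idempotent in a
minimal left ideal of the semigroup of the ultrafilters of `G`, every member of `q` contains members of all the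
families; the set of the patterns which are not realised is open, and a strategy argument for `q` shows that almost
all choices with respect to `q` can be continued. The existence comes from the infinite exact pattern theorem of the
starting files (`Pool.Agent.H361R2.Inf.exact_infinite`), in the form of `Pool.Agent.W68.Gap`.
-/

set_option autoImplicit false

namespace Pool.Agent.Results.MP_3ec731_nt.PartitionRegularGaps

/-- Let `G` be a commutative monoid, `φ j : G → ℕ` homomorphisms which are positive outside `0`, and let `𝓒 i` be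
families of nonempty finite subsets of `G` which are invariant under translations and partition regular: for every
finite colouring of `G` the family `𝓒 i` has a monochromatic member without `0`. Let `q j ≥ 1` and `r j` be prime to
`q j`. There are `S i ∈ 𝓒 i` such that for all `j`, all choices `x i ∈ S i`, all nonempty finite sets
`F 0 < ⋯ < F (k - 1)` of integers `≥ j` and all `R`: for infinitely many `n ≡ r j (mod q j)` the primes in
`[n - R, n + R]` are exactly the `n + s m`, `m ≤ k`, where `s m` is the sum of the `φ j (x i)` over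
`i ∈ F 0 ∪ ⋯ ∪ F (m - 1)`. -/
theorem result (G : Type) [AddCommMonoid G] (φ : ℕ → G →+ ℕ) (hφ : ∀ j x, x ≠ 0 → φ j x ≠ 0)
    (𝓒 : ℕ → Set (Finset G)) (hne : ∀ i, ∀ S ∈ 𝓒 i, S.Nonempty)
    (htr : ∀ i, ∀ S ∈ 𝓒 i, ∀ v : G, ∃ S' ∈ 𝓒 i, (S' : Set G) = (fun s => v + s) '' S)
    (hpr : ∀ (i k : ℕ) (χ : G → Fin k), ∃ S ∈ 𝓒 i, 0 ∉ S ∧ ∀ s ∈ S, ∀ s' ∈ S, χ s = χ s')
    (q : ℕ → ℕ) (hq : ∀ j, 1 ≤ q j) (r : ℕ → ℤ) (hr : ∀ j, IsCoprime (r j) (q j : ℤ)) :
    ∃ S : ℕ → Finset G, (∀ i, S i ∈ 𝓒 i) ∧ (∀ i, 0 ∉ S i) ∧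
      ∀ (j k : ℕ) (F : ℕ → Finset ℕ) (x : ℕ → G), (∀ i, x i ∈ S i) →
        (∀ l < k, (F l).Nonempty) → (∀ l < k, ∀ i ∈ F l, j ≤ i) →
        (∀ l, l + 1 < k → ∀ i ∈ F l, ∀ i' ∈ F (l + 1), i < i') →
        ∀ R : ℕ, {n : ℕ | (n : ℤ) ≡ r j [ZMOD q j] ∧
          ∀ y : ℤ, |y| ≤ R → (Nat.Prime ((n : ℤ) + y).toNat ↔
            ∃ m ≤ k, y = ∑ l ∈ Finset.range m, ∑ i ∈ F l, (φ j (x i) : ℤ))}.Infinite := by
  classical
  have hT : Pool.Agent.J6H10.PR.Tails (fun _ : ℕ => {x : G | x ≠ 0}) := by
    refine ⟨fun _ _ _ => le_rfl, fun n => ?_, fun n x hx => ⟨0, fun y _ hxy => ?_⟩⟩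
    · obtain ⟨S, hS, h0, -⟩ := hpr 0 1 (fun _ => 0)
      obtain ⟨s, hs⟩ := hne 0 S hS
      exact ⟨s, fun h => h0 (h ▸ hs)⟩
    · have h1 := congrArg (φ 0) hxy
      rw [map_add, map_zero] at h1
      exact hφ 0 x hx (by omega)
  have hreg : ∀ i, Pool.Agent.J6H10.PR.Reg (fun _ : ℕ => {x : G | x ≠ 0}) (𝓒 i) := by
    intro i
    refine ⟨fun S hS v _ => ?_, fun n k χ => ?_⟩
    · obtain ⟨S', hS', h⟩ := htr i S hS v
      refine ⟨S', hS', fun s' => ?_⟩
      rw [← Finset.mem_coe, h, Set.mem_image]
      constructor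
      · rintro ⟨s, hs, rfl⟩
        exact ⟨s, hs, rfl⟩
      · rintro ⟨s, hs, rfl⟩
        exact ⟨s, hs, rfl⟩
    · obtain ⟨S, hS, h0, h⟩ := hpr i k χ
      exact ⟨S, hS, fun s hs h1 => h0 (h1 ▸ hs), h⟩
  let Φ : ℕ → G →+ ℤ := fun j => (Nat.castAddMonoidHom ℤ).comp (φ j)
  obtain ⟨S, hS1, hS2, hS3⟩ := Pool.Agent.J6H10.PR.main_gapsG hT 𝓒 hreg Φ (fun j x hx => by
    have h1 : 1 ≤ φ j x := Nat.one_le_iff_ne_zero.2 (hφ j x hx)
    show (1 : ℤ) ≤ ((φ j x : ℕ) : ℤ)
    exact_mod_cast h1) q hq r hr
  exact ⟨S, hS1, fun i h => hS2 i 0 h rfl, hS3⟩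

/-- Special case: homothetic copies. For all nonempty finite sets `E_0, E_1, …` of naturals there are positive
integers `a_i, b_i` such that for all choices `e_i ∈ E_i` all vectors of the sums of the `a_i e_i + b_i` over
`i ∈ F_l`, `l < k`, are vectors of the gaps of `k + 1` consecutive primes, infinitely often. -/
theorem homothetic (E : ℕ → Finset ℕ) (hE : ∀ i, (E i).Nonempty) :
    ∃ a b : ℕ → ℕ, (∀ i, 0 < a i ∧ 0 < b i) ∧
      ∀ (k : ℕ) (F : ℕ → Finset ℕ) (e : ℕ → ℕ), (∀ i, e i ∈ E i) →
        (∀ l < k, (F l).Nonempty) → (∀ l, l + 1 < k → ∀ i ∈ F l, ∀ i' ∈ F (l + 1), i < i') →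
        ∀ R : ℕ, {n : ℕ | ∀ y : ℤ, |y| ≤ R → (Nat.Prime ((n : ℤ) + y).toNat ↔
          ∃ m ≤ k, y = ∑ l ∈ Finset.range m, ∑ i ∈ F l, ((a i * e i + b i : ℕ) : ℤ))}.Infinite := by
  classical
  obtain ⟨S, hS1, -, hS3⟩ := result ℕ (fun _ => AddMonoidHom.id ℕ) (fun _ x hx => hx)
    (fun i => {S | ∃ a b : ℕ, 0 < a ∧ 0 < b ∧ S = (E i).image fun e => a * e + b})
    (fun i S hS => by
      obtain ⟨a, b, -, -, rfl⟩ := hS
      exact (hE i).image _) (fun i S hS v => by
      obtain ⟨a, b, ha, hb, rfl⟩ := hS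
      refine ⟨(E i).image fun e => a * e + (b + v), ⟨a, b + v, ha, by omega, rfl⟩, ?_⟩
      rw [Finset.coe_image, Finset.coe_image, Set.image_image]
      refine Set.image_congr fun e _ => ?_
      ring) (fun i k χ => by
      obtain ⟨a, ha, b, c, h⟩ := Combinatorics.exists_mono_homothetic_copy (E i) (fun n => χ (n + 1))
      refine ⟨(E i).image fun e => a * e + (b + 1), ⟨a, b + 1, ha, by omega, rfl⟩, ?_, ?_⟩
      · intro h0
        obtain ⟨e, -, he⟩ := Finset.mem_image.1 h0
        omega
      · have h1 : ∀ s ∈ (E i).image (fun e => a * e + (b + 1)), χ s = c := by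
          intro s hs
          obtain ⟨e, he, rfl⟩ := Finset.mem_image.1 hs
          have h2 := h e he
          rw [smul_eq_mul] at h2
          rw [← h2, add_assoc]
        intro s hs s' hs'
        rw [h1 s hs, h1 s' hs'])
    (fun _ => 1) (fun _ => le_rfl) (fun _ => 1) (fun _ => isCoprime_one_left)
  choose a b ha hb hab using hS1
  refine ⟨a, b, fun i => ⟨ha i, hb i⟩, fun k F e he hF1 hF2 R => ?_⟩
  have h1 := hS3 0 k F (fun i => a i * e i + b i) (fun i => by
    rw [hab i]
    exact Finset.mem_image_of_mem _ (he i)) hF1 (fun _ _ _ _ => Nat.zero_le _) hF2 R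
  refine h1.mono ?_
  rintro n ⟨-, hn⟩
  exact hn

end Pool.Agent.Results.MP_3ec731_nt.PartitionRegularGaps
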