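import Mathlib
import Pool.Agent.J6H13.PR.Up

/-!
# An explicit proportion of all patterns is realised by consecutive primes

There is an absolute constant `c > 0` such that for all `0 ≤ r < k` there is `N` with the following property.
For all `q ≥ 1`, all `a` prime to `q` and EVERY set `V` of at least `N` natural numbers, at least
`(c * (r + 1) / k * P) ^ k` of all the `k`-element subsets `S` of `V` are such that for infinitely many
`n ≡ a (mod q)` the numbers `n + q s`, `s ∈ S`, are `k` of some `k + r` consecutive primes. Here `P` is the product of
the `1 - 1 / p` over the primes `p ≤ k` which do not divide `q`, and `P ≥ c / log (k + 1)`.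

For `r = 0` these are patterns of consecutive primes, in the proportion `(c P / k) ^ k`. If one allows `ε k` other
primes between the `k` primes, then the proportion is `(c ε P) ^ k`, which is sharp up to the value of the constant:
the proportion of the `k`-element subsets of `{0, ..., N - 1}` which occur at all is at most `(16 P) ^ k`, for
large `N` (because such a set misses a residue class modulo every prime which does not divide `q`). The known
argument of Maynard's theorem gives the proportion `exp (- C k ^ 2)`.

Proof. The coloured Maynard-Tao theorem of the starting files (`Pool.Agent.TH779.Ord.Core`) with exact patterns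
(`Pool.Agent.TH779.Ord.Exact`): for `T` classes of shifts, with a large number of members, and `λ ≥ 1` there are
infinitely many `n` with `∑ (N_g - λ N_g (N_g - 1)) ≥ T / (40 λ)`, where `N_g` is the number of the primes with
shift in the class `g`. For `λ = k / (r + 1) + 2` and `T = 40 k λ` there are `k` primes with shifts in `k` classes,
which contain no other primes, such that at most `r` other primes are between them (`Occ.lean`). By Erdős' box
lemma all but few of the `T`-tuples of elements of a large subset of `V`, which misses a residue class modulo each
prime `p ≤ T`, `p ∤ q`, then contain `k` elements with the required property (`Cnt.lean`), and one of the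
`choose T k ≤ (120 e k / (r + 1)) ^ k` choices of indices is in a proportion.
-/

set_option autoImplicit false

namespace Pool.Agent.Results.MP_3ec731_nt.ProportionOfPatterns

open Finset Filter

/-- for infinitely many `n ≡ a (mod q)` the numbers `n + q s`, `s ∈ S`, are among some `|S| + r` consecutive
primes -/
def Occurs (q a r : ℕ) (S : Finset ℕ) : Prop :=
  {n : ℕ | n ≡ a [MOD q] ∧
    ∃ m : ℕ, ∀ s ∈ S, ∃ j < S.card + r, n + q * s = Nat.nth Nat.Prime (m + j)}.Infinite

/-- the product of `1 - 1 / p` over the primes `p ≤ k` which do not divide `q` -/
noncomputable def density (k q : ℕ) : ℝ :=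
  ∏ p ∈ (range (k + 1)).filter (fun p => p.Prime ∧ ¬ p ∣ q), (1 - 1 / (p : ℝ))

open Classical in
/-- the number of the `k`-element subsets of `V` which occur -/
noncomputable def number (k q a r : ℕ) (V : Finset ℕ) : ℕ :=
  ((V.powersetCard k).filter (fun S => Occurs q a r S)).card

/-- There is an absolute constant `c > 0` such that for all `0 ≤ r < k` there is `N` with the following property:
for all `q ≥ 1`, all `a` coprime to `q` and every set `V` of at least `N` natural numbers, at least the proportion
`(c (r + 1) / k * P) ^ k` of the `k`-element subsets `S` of `V` occurs, `P = density k q`. -/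
theorem result : ∃ c : ℝ, 0 < c ∧ ∀ k r : ℕ, 1 ≤ k → r < k → ∃ N : ℕ, ∀ q a : ℕ, 1 ≤ q → Nat.Coprime a q →
    ∀ V : Finset ℕ, N ≤ V.card →
      (c * (((r : ℝ) + 1) / k) * density k q) ^ k * ((V.card).choose k : ℝ) ≤ number k q a r V :=
  Pool.Agent.J6H13.PR.lower

/-- The density is at least `c / log (k + 1)`. -/
theorem density_ge : ∃ c : ℝ, 0 < c ∧ ∀ k q : ℕ, 1 ≤ k → c / Real.log (k + 1) ≤ density k q :=
  Pool.Agent.J6H13.PR.mert_low

open Classical in
/-- the number of the `k`-element subsets of `{0, ..., N - 1}` which occur for some `a` and `r` -/
noncomputable def total (k q N : ℕ) : ℕ :=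
  (((range N).powersetCard k).filter (fun S => ∃ a r, Occurs q a r S)).card

/-- The upper bound: for large `N` at most the proportion `(16 P) ^ k` of the `k`-element subsets of
`{0, ..., N - 1}` occurs, even if any number `r` of other primes is allowed. -/
theorem upper (k q : ℕ) (hk : 1 ≤ k) : ∀ᶠ N : ℕ in atTop,
    (total k q N : ℝ) ≤ (16 * density k q) ^ k * (N.choose k : ℝ) :=
  Pool.Agent.J6H13.PR.upper k q hk

end Pool.Agent.Results.MP_3ec731_nt.ProportionOfPatterns
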